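import Pool.Agent.helper38.Sch.CB2
import Pool.Agent.helper79.Sch.SP1
import Pool.Agent.helper79.Sch.WA

open scoped Pointwise ContDiff
open MeasureTheory Set Filter Topology

namespace Pool.Agent.helper41.Sch

theorem CB_dot_lip (a : P) : Lip (fun x : P => dot a x) := by
  have h2 : Lip (fun x : P => x.2) := ⟨1, LipschitzWith.prod_snd⟩
  exact CBJ_lip_add (CBJ_lip_mul a.1 CBJ_lip_fst) (CBJ_lip_mul a.2 h2)

theorem CB_dot_convex (a : P) (c : ℝ) : ConvexOn ℝ univ (fun x : P => -dot a x - c) := by
  refine ⟨convex_univ, fun x _ y _ p q _ _ hpq => ?_⟩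
  simp only [dot, Prod.fst_add, Prod.smul_fst, Prod.snd_add, Prod.smul_snd, smul_eq_mul]
  apply le_of_eq
  have : c = p * c + q * c := by rw [← add_mul, hpq, one_mul]
  linarith

/-- If `h` vanishes at a point on the side `σ`, then it vanishes on a small segment starting at
`0` in any direction of that side. -/
theorem CB_zero_seg {h : P → ℝ} (hh : ConvexOn ℝ univ h) {s : ℝ} (hs : 0 < s)
    (h1 : ∀ x, 0 ≤ h x) (h2 : ∀ t, |t| ≤ s → h (0, t) = 0) {p : P} (hp : h p = 0)
    {v : P} (hv : 0 < v.1 * p.1) : ∃ ε > (0 : ℝ), ∀ δ : ℝ, 0 ≤ δ → δ ≤ ε → h (δ • v) = 0 := by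
  have hp0 : p.1 ≠ 0 := by
    intro h0
    rw [h0, mul_zero] at hv
    exact lt_irrefl _ hv
  -- `δ v = lam p + (1 - lam) (0, t)` with `lam = δ v₁ / p₁`
  set q : ℝ := v.1 / p.1 with hq
  have hq0 : 0 < q := by
    rw [hq, div_pos_iff]
    rcases lt_or_gt_of_ne hp0 with h | h
    · right; exact ⟨by nlinarith, h⟩
    · left; exact ⟨by nlinarith, h⟩
  set A : ℝ := |v.2 - q * p.2| with hA
  refine ⟨min (1 / (2 * q)) (s / (2 * (A + 1))), lt_min (by positivity) (by positivity), ?_⟩
  intro δ hδ0 hδ
  have hδ1 : δ ≤ 1 / (2 * q) := hδ.trans (min_le_left _ _)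
  have hδ2 : δ ≤ s / (2 * (A + 1)) := hδ.trans (min_le_right _ _)
  have hA0 : 0 ≤ A := abs_nonneg _
  set lam : ℝ := δ * q with hlam
  have hlam0 : 0 ≤ lam := by positivity
  have hlam1 : lam ≤ 1 / 2 := by
    calc δ * q ≤ 1 / (2 * q) * q := mul_le_mul_of_nonneg_right hδ1 hq0.le
      _ = 1 / 2 := by field_simp
  have h1l : 0 < 1 - lam := by linarith
  set t : ℝ := δ * (v.2 - q * p.2) / (1 - lam) with ht
  have hts : |t| ≤ s := by
    rw [ht, abs_div, abs_mul, abs_of_nonneg hδ0, abs_of_pos h1l, div_le_iff₀ h1l]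
    have h5 : δ * A ≤ s / 2 := by
      calc δ * A ≤ s / (2 * (A + 1)) * A := mul_le_mul_of_nonneg_right hδ2 hA0
        _ = s / 2 * (A / (A + 1)) := by field_simp
        _ ≤ s / 2 * 1 := by
          apply mul_le_mul_of_nonneg_left _ (by positivity)
          rw [div_le_one (by positivity)]; linarith
        _ = s / 2 := mul_one _
    have h6 : s / 2 ≤ s * (1 - lam) := by nlinarith
    exact h5.trans h6
  have hcomb : δ • v = lam • p + (1 - lam) • ((0, t) : P) := by
    apply Prod.ext
    · simp only [Prod.smul_fst, Prod.fst_add, smul_eq_mul, mul_zero, add_zero]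
      rw [hlam, hq]; field_simp
    · simp only [Prod.smul_snd, Prod.snd_add, smul_eq_mul]
      rw [ht, mul_div_cancel₀ _ h1l.ne', hlam]; ring
  have hle := hh.2 (mem_univ p) (mem_univ ((0, t) : P)) hlam0 h1l.le (by ring)
  rw [← hcomb, hp, h2 t hts] at hle
  simp only [smul_zero, add_zero] at hle
  exact le_antisymm hle (h1 _)

theorem case_line {f g : P → ℝ} (hf : LC f) (hg : LC g) {r : ℝ} (hr : 0 < r)
    (hB : ∀ φ, Test φ → tsupport φ ⊆ Metric.ball 0 r → B φ f g = 0)
    (h0 : FlatAt f 0 ((0 : ℝ), (1 : ℝ))) (h1 : ∃ v, ¬ FlatAt f 0 v) :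
    FlatAt g 0 ((0 : ℝ), (1 : ℝ)) := by
  obtain ⟨a, s, hs, hnn, hseg, hzs, halt⟩ := normalize hf h0
  set h : P → ℝ := fun x => f x - dot a x - f 0 with hh
  have hlin : Lip (fun x : P => -dot a x - f 0) :=
    CBJ_lip_sub (by
      have := CBJ_lip_mul (-1) (CB_dot_lip a)
      simpa using this) (CBJ_lip_const (f 0))
  have heq : h = fun x => f x + (-dot a x - f 0) := by
    funext x; simp only [hh]; ring
  have hhLC : LC h := by
    rw [heq]
    exact ⟨hf.1.add (CB_dot_convex a (f 0)), CBJ_lip_add hf.2 hlin⟩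
  have hBh : ∀ φ, Test φ → tsupport φ ⊆ Metric.ball 0 r → B φ h g = 0 := by
    intro φ hφ hφr
    rw [heq]
    have e1 : B φ (fun x => f x + (-dot a x - f 0)) g
        = B φ f g + B φ (fun x => -dot a x - f 0) g := B_add_left hφ.1 hf.2 hlin hg.2
    have e2 : B φ (fun x => -dot a x - f 0) g = 0 :=
      B_affine hφ.1 hg.2 (-a) (-f 0) univ isOpen_univ (subset_univ _) _ (fun x _ => by
        simp only [dot, Prod.fst_neg, Prod.snd_neg]; ring)
    rw [e1, e2, hB φ hφ hφr, add_zero]
  -- upper bound
  have hup : ∀ φ, Test φ → tsupport φ ⊆ Metric.ball 0 (min r s) →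
      ∫ t : ℝ, g (0, t) * d2 (d2 φ) (0, t) ≤ 0 := by
    intro φ hφ hφm
    have hφr : tsupport φ ⊆ Metric.ball 0 r := hφm.trans (Metric.ball_subset_ball (min_le_left _ _))
    have hφs : tsupport φ ⊆ Metric.ball 0 s := hφm.trans (Metric.ball_subset_ball (min_le_right _ _))
    rcases halt with hz | ⟨J, hJ, hJb⟩
    · by_cases hR : ∀ x : P, 0 < x.1 → 0 < h x
      · exact side_bound hhLC hg (Or.inl rfl) hr hs hnn hseg hz
          (fun x _ hx => hR x (by linarith)) hBh hφ hφr hφs
      · by_cases hL : ∀ x : P, x.1 < 0 → 0 < h x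
        · exact side_bound hhLC hg (Or.inr rfl) hr hs hnn hseg hzs
            (fun x _ hx => hL x (by linarith)) hBh hφ hφr hφs
        · exfalso
          push Not at hR hL
          obtain ⟨p, hp1, hp2⟩ := hR
          obtain ⟨q, hq1, hq2⟩ := hL
          have hp : h p = 0 := le_antisymm hp2 (hnn p)
          have hq : h q = 0 := le_antisymm hq2 (hnn q)
          obtain ⟨v, hv⟩ := h1
          apply hv
          -- it is enough to find a common `ε` with `h (ε v) = 0 = h (-ε v)`
          have key : ∃ ε > (0 : ℝ), h (ε • v) = 0 ∧ h (ε • (-v)) = 0 := by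
            rcases lt_trichotomy v.1 0 with hv1 | hv1 | hv1
            · obtain ⟨e1, he1, k1⟩ := CB_zero_seg hhLC.1 hs hnn hseg hq (v := v)
                (mul_pos_of_neg_of_neg hv1 hq1)
              obtain ⟨e2, he2, k2⟩ := CB_zero_seg hhLC.1 hs hnn hseg hp (v := -v)
                (by simp only [Prod.fst_neg]; nlinarith)
              exact ⟨min e1 e2, lt_min he1 he2, k1 _ (lt_min he1 he2).le (min_le_left _ _),
                k2 _ (lt_min he1 he2).le (min_le_right _ _)⟩
            · refine ⟨s / (|v.2| + 1), by positivity, ?_, ?_⟩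
              · have : (s / (|v.2| + 1)) • v = ((0 : ℝ), s / (|v.2| + 1) * v.2) := by
                  apply Prod.ext <;> simp [hv1]
                rw [this]
                apply hseg
                rw [abs_mul, abs_of_pos (by positivity), div_mul_eq_mul_div,
                  div_le_iff₀ (by positivity)]
                nlinarith [abs_nonneg v.2]
              · have : (s / (|v.2| + 1)) • (-v) = ((0 : ℝ), -(s / (|v.2| + 1) * v.2)) := by
                  apply Prod.ext <;> simp [hv1]
                rw [this]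
                apply hseg
                rw [abs_neg, abs_mul, abs_of_pos (by positivity), div_mul_eq_mul_div,
                  div_le_iff₀ (by positivity)]
                nlinarith [abs_nonneg v.2]
            · obtain ⟨e1, he1, k1⟩ := CB_zero_seg hhLC.1 hs hnn hseg hp (v := v)
                (mul_pos hv1 hp1)
              obtain ⟨e2, he2, k2⟩ := CB_zero_seg hhLC.1 hs hnn hseg hq (v := -v)
                (by simp only [Prod.fst_neg]; nlinarith)
              exact ⟨min e1 e2, lt_min he1 he2, k1 _ (lt_min he1 he2).le (min_le_left _ _),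
                k2 _ (lt_min he1 he2).le (min_le_right _ _)⟩
          obtain ⟨ε, hε, k1, k2⟩ := key
          refine ⟨ε, hε, ?_⟩
          have k1' : f (ε • v) - dot a (ε • v) - f 0 = 0 := k1
          have k2' : f (ε • (-v)) - dot a (ε • (-v)) - f 0 = 0 := k2
          have k3 : dot a (ε • (-v)) = -dot a (ε • v) := by
            simp only [dot, Prod.smul_fst, Prod.smul_snd, Prod.fst_neg, Prod.snd_neg, smul_eq_mul]
            ring
          rw [zero_add, zero_sub, ← smul_neg]
          rw [k3] at k2'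
          linarith
    · exact jump_bound hhLC hg hJ hr hs hnn hseg hJb hBh hφ hφr hφs
  apply flat_of_line hg (lt_min hr hs)
  intro φ hφ hφm
  apply le_antisymm (hup φ hφ hφm)
  have hmL : Lip (fun x : P => max x.1 0) := CBJ_lip_max CBJ_lip_fst (CBJ_lip_const 0)
  have hmC : ConvexOn ℝ univ (fun x : P => max x.1 0) := by
    have h5 := CBJ_fst_convex 1 convex_univ
    simp only [one_mul] at h5
    exact ConvexOn.sup h5 (convexOn_const 0 convex_univ)
  have h6 := B_nonneg hφ hmL hg.2 univ isOpen_univ convex_univ (subset_univ _) hmC hg.1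
  rw [B_crease_pos hφ.1 hg.2] at h6
  linarith

end Pool.Agent.helper41.Sch
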