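import Pool.Agent.helper38.Sch.CBJ
import Pool.Agent.helper21.Sch.PO2
import Pool.Agent.helper14.Sch.CB1

open scoped Pointwise ContDiff
open MeasureTheory Set Filter Topology

namespace Pool.Agent.helper41.Sch

/-- A cutoff in the first variable. -/
theorem CB2_cutoff {t : ℝ} (ht : 0 < t) : ∃ χ : P → ℝ, ContDiff ℝ ∞ χ ∧ (∀ x, 0 ≤ χ x) ∧
    (∀ x, χ x ≤ 1) ∧ (∀ x : P, |x.1| < t / 3 → χ x = 1) ∧
    (∀ x : P, x ∈ tsupport χ → |x.1| ≤ t / 2) := by
  let b : ContDiffBump (0 : ℝ) :=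
    { rIn := t / 3, rOut := t / 2, rIn_pos := by positivity, rIn_lt_rOut := by linarith }
  refine ⟨fun x => b x.1, b.contDiff.comp contDiff_fst, fun x => b.nonneg, fun x => b.le_one, ?_, ?_⟩
  · intro x hx
    apply b.one_of_mem_closedBall
    simp only [Metric.mem_closedBall, dist_zero_right, Real.norm_eq_abs]
    exact hx.le
  · intro x hx
    have h1 : tsupport (fun x : P => b x.1) ⊆ Prod.fst ⁻¹' (tsupport b) :=
      tsupport_comp_subset_preimage (b : ℝ → ℝ) (f := (Prod.fst : P → ℝ)) continuous_fst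
    have h2 := h1 hx
    rw [b.tsupport_eq] at h2
    simpa using h2

theorem CB2_test_mul {φ χ : P → ℝ} (hφ : Test φ) (hχ : ContDiff ℝ ∞ χ) (h0 : ∀ x, 0 ≤ χ x) :
    Test (fun x => φ x * χ x) :=
  ⟨⟨hφ.1.1.mul hχ, hφ.1.2.mul_right⟩, fun x => mul_nonneg (hφ.2 x) (h0 x)⟩

/-- The support of a product. -/
theorem CB2_tsupport_left {φ χ : P → ℝ} : tsupport (fun x => φ x * χ x) ⊆ tsupport φ :=
  tsupport_mul_subset_left

theorem CB2_tsupport_right {φ χ : P → ℝ} : tsupport (fun x => φ x * χ x) ⊆ tsupport χ :=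
  tsupport_mul_subset_right

theorem CB2_d2_congr {φ ψ : P → ℝ} {x : P} (h : φ =ᶠ[𝓝 x] ψ) : d2 φ x = d2 ψ x :=
  h.lineDeriv_eq

theorem CB2_d2d2_congr {φ ψ : P → ℝ} {x : P} (h : φ =ᶠ[𝓝 x] ψ) :
    d2 (d2 φ) x = d2 (d2 ψ) x := by
  apply CB2_d2_congr
  filter_upwards [eventually_eventually_nhds.2 h] with y hy
  exact CB2_d2_congr hy

theorem CB2_crease {φ g : P → ℝ} (hφ : Cc φ) (hg : Lip g) {σ : ℝ} (hσ : σ = 1 ∨ σ = -1) :
    B φ (fun x => max (σ * x.1) 0) g = (1 / 2) * ∫ s : ℝ, g (0, s) * d2 (d2 φ) (0, s) := by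
  rcases hσ with rfl | rfl
  · have : (fun x : P => max (1 * x.1) 0) = fun x => max x.1 0 := by
      funext x; rw [one_mul]
    rw [this]; exact B_crease_pos hφ hg
  · have : (fun x : P => max (-1 * x.1) 0) = fun x => max (-x.1) 0 := by
      funext x; rw [neg_one_mul]
    rw [this]; exact B_crease_neg hφ hg

/-- The function `f` on the side `-σ` and `0` on the side `σ` is convex. -/
theorem CB2_glue {f : P → ℝ} (hf : LC f) {σ s : ℝ} (hσ : σ = 1 ∨ σ = -1) (hs : 0 < s)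
    (h1 : ∀ x, 0 ≤ f x) (h2 : ∀ t, |t| ≤ s → f (0, t) = 0) :
    ConvexOn ℝ {x : P | |x.2| < s} (fun x => if 0 < σ * x.1 then 0 else f x) := by
  have hQ := CBJ_strip_convex s
  have hfQ : ConvexOn ℝ {x : P | |x.2| < s} f := hf.1.subset (subset_univ _) hQ
  have h0Q : ConvexOn ℝ {x : P | |x.2| < s} (fun _ : P => (0 : ℝ)) := convexOn_const 0 hQ
  rcases hσ with rfl | rfl
  · refine (glue hs hfQ h0Q (fun x _ => h1 x) (fun x _ => le_rfl) (fun t ht => h2 t ht.le)
      (fun t _ => rfl)).congr ?_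
    intro x hx
    simp only [one_mul]
    by_cases h : x.1 ≤ 0
    · rw [if_pos h, if_neg (not_lt.2 h)]
    · rw [if_neg h, if_pos (not_le.1 h)]
  · refine (glue hs h0Q hfQ (fun x _ => le_rfl) (fun x _ => h1 x) (fun t _ => rfl)
      (fun t ht => h2 t ht.le)).congr ?_
    intro x hx
    have hx' : |x.2| < s := hx
    simp only
    by_cases h : x.1 ≤ 0
    · rw [if_pos h]
      rcases h.lt_or_eq with h' | h'
      · rw [if_pos (by linarith)]
      · rw [if_neg (by rw [h']; simp)]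
        have : x = (0, x.2) := Prod.ext h' rfl
        rw [this, h2 _ hx'.le]
    · rw [if_neg h, if_neg (by push Not at h ⊢; linarith)]

/-- The lower bound. -/
theorem CB2_lower {f g : P → ℝ} (hf : LC f) (hg : LC g) {σ s : ℝ} (hσ : σ = 1 ∨ σ = -1)
    (hs : 0 < s) (h1 : ∀ x, 0 ≤ f x) (h2 : ∀ t, |t| ≤ s → f (0, t) = 0)
    (h3 : ZeroSlope f s σ) {φ : P → ℝ} (hφ : Test φ)
    (hφs : tsupport φ ⊆ Metric.ball 0 s) {ε : ℝ} (hε : 0 < ε) :
    ε * ((1 / 2) * ∫ t : ℝ, g (0, t) * d2 (d2 φ) (0, t)) ≤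
      B φ (fun x => max (f x) (ε * max (σ * x.1) 0)) g := by
  obtain ⟨t, ht, htf⟩ := h3 ε hε
  obtain ⟨χ, hχ, hχ0, hχ1, hχone, hχs⟩ := CB2_cutoff ht
  set m : P → ℝ := fun x => max (σ * x.1) 0 with hm
  set F : P → ℝ := fun x => max (f x) (ε * m x) with hF
  have hmL : Lip m := CBJ_lip_max (CBJ_lip_mul σ CBJ_lip_fst) (CBJ_lip_const 0)
  have hFL : Lip F := CBJ_lip_max hf.2 (CBJ_lip_mul ε hmL)
  have hFC : ConvexOn ℝ univ F := by
    apply hf.1.sup
    have h1 : ConvexOn ℝ univ m := by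
      apply ConvexOn.sup (CBJ_fst_convex σ convex_univ) (convexOn_const 0 convex_univ)
    have := h1.smul hε.le
    simpa using this
  have hT1 : Test (fun x => φ x * χ x) := CB2_test_mul hφ hχ hχ0
  have hT2 : Test (fun x => φ x * (1 - χ x)) :=
    CB2_test_mul hφ (contDiff_const.sub hχ) (fun x => by linarith [hχ1 x])
  have hsplit : B φ F g = B (fun x => φ x * χ x) F g + B (fun x => φ x * (1 - χ x)) F g := by
    rw [← B_add_test hT1.1 hT2.1 hFL hg.2]
    congr 1
    funext x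
    ring
  have hnn : 0 ≤ B (fun x => φ x * (1 - χ x)) F g :=
    B_nonneg hT2 hFL hg.2 univ isOpen_univ convex_univ (subset_univ _) hFC hg.1
  set h : P → ℝ := fun x => F x + (-ε) * m x with hh
  have hhL : Lip h := CBJ_lip_add hFL (CBJ_lip_mul (-ε) hmL)
  set Q : Set P := {x : P | |x.2| < s} ∩ {x : P | |x.1| < t} with hQdef
  have hQo : IsOpen Q := (CBJ_strip_open s).inter
    (isOpen_lt (continuous_abs.comp continuous_fst) continuous_const)
  have hQ1 : Convex ℝ {x : P | |x.1| < t} := by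
    have : {x : P | |x.1| < t} = (LinearMap.fst ℝ ℝ ℝ) ⁻¹' (Ioo (-t) t) := by
      ext x
      simp [abs_lt]
    rw [this]
    exact (convex_Ioo (-t) t).linear_preimage _
  have hQc : Convex ℝ Q := (CBJ_strip_convex s).inter hQ1
  have hQsup : tsupport (fun x => φ x * χ x) ⊆ Q := by
    intro x hx
    refine ⟨CBJ_ball_strip hφs (CB2_tsupport_left hx), ?_⟩
    have := hχs x (CB2_tsupport_right hx)
    show |x.1| < t
    linarith
  have hhQ : ConvexOn ℝ Q h := by
    refine ((CB2_glue hf hσ hs h1 h2).subset inter_subset_left hQc).congr ?_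
    intro x hx
    have hx1 : |x.2| < s := hx.1
    have hx2 : |x.1| < t := hx.2
    simp only [hh, hF, hm]
    split_ifs with hx3
    · rw [max_eq_left hx3.le]
      have h4 := htf (σ * x.1) hx3 (by
        rcases hσ with rfl | rfl
        · rw [one_mul]; exact (abs_lt.1 hx2).2
        · have := (abs_lt.1 hx2).1; linarith) x.2 hx1.le
      have h5 : ((σ * (σ * x.1), x.2) : P) = x := by
        rcases hσ with rfl | rfl <;> simp
      rw [h5] at h4
      rw [max_eq_right h4]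
      ring
    · rw [max_eq_right (not_lt.1 hx3)]
      rw [mul_zero, max_eq_left (h1 x)]
      ring
  have hpos : 0 ≤ B (fun x => φ x * χ x) h g :=
    B_nonneg hT1 hhL hg.2 Q hQo hQc hQsup hhQ (hg.1.subset (subset_univ _) hQc)
  have e1 : B (fun x => φ x * χ x) h g
      = B (fun x => φ x * χ x) F g + B (fun x => φ x * χ x) (fun x => (-ε) * m x) g :=
    B_add_left hT1.1 hFL (CBJ_lip_mul (-ε) hmL) hg.2
  have e2 : B (fun x => φ x * χ x) (fun x => (-ε) * m x) g
      = (-ε) * B (fun x => φ x * χ x) m g := B_smul_left hT1.1 hmL hg.2 (-ε)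
  have e3 : B (fun x => φ x * χ x) m g
      = (1 / 2) * ∫ s : ℝ, g (0, s) * d2 (d2 (fun x => φ x * χ x)) (0, s) :=
    CB2_crease hT1.1 hg.2 hσ
  have e4 : ∀ u : ℝ, d2 (d2 (fun x => φ x * χ x)) (0, u) = d2 (d2 φ) (0, u) := by
    intro u
    apply CB2_d2d2_congr
    have hop : IsOpen {x : P | |x.1| < t / 3} :=
      isOpen_lt (continuous_abs.comp continuous_fst) continuous_const
    filter_upwards [hop.mem_nhds (show ((0 : ℝ), u) ∈ {x : P | |x.1| < t / 3} by
      simp only [mem_setOf_eq, abs_zero]; positivity)] with y hy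
    rw [hχone y hy, mul_one]
  simp only [e4] at e3
  rw [e1, e2, e3] at hpos
  rw [hsplit]
  linarith

/-- The upper bound. -/
theorem CB2_upper {f g : P → ℝ} (hf : LC f) (hg : LC g) {σ r : ℝ} (hσ : σ = 1 ∨ σ = -1)
    (h1 : ∀ x, 0 ≤ f x)
    (h4 : ∀ x : P, ‖x‖ < r → 0 < σ * x.1 → 0 < f x)
    (hB : ∀ φ, Test φ → tsupport φ ⊆ Metric.ball 0 r → B φ f g = 0)
    {φ : P → ℝ} (hφ : Test φ) (hφr : tsupport φ ⊆ Metric.ball 0 r) :
    ∃ C : ℝ, 0 ≤ C ∧ ∀ η > 0, ∃ ε > 0,
      B φ (fun x => max (f x) (ε * max (σ * x.1) 0)) g ≤ C * (ε * η) := by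
  obtain ⟨C, hC, hCb⟩ := B_bound hφ.1 hg
  refine ⟨C, hC, fun η hη => ?_⟩
  set m : P → ℝ := fun x => max (σ * x.1) 0 with hm
  have hmL : Lip m := CBJ_lip_max (CBJ_lip_mul σ CBJ_lip_fst) (CBJ_lip_const 0)
  have hmb : ∀ x : P, m x ≤ ‖x‖ := by
    intro x
    apply max_le _ (norm_nonneg _)
    have h5 : σ * x.1 ≤ |x.1| := by
      rcases hσ with rfl | rfl
      · rw [one_mul]; exact le_abs_self _
      · rw [neg_one_mul]; exact neg_le_abs _
    exact h5.trans (by simpa using norm_fst_le x)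
  -- the compact set where `σ x₁ ≥ η`
  have hK : IsCompact (tsupport φ ∩ {x : P | η ≤ σ * x.1}) := by
    apply hφ.1.2.isCompact.inter_right
    exact isClosed_le continuous_const (continuous_const.mul continuous_fst)
  obtain ⟨c, hc, hcf⟩ : ∃ c > 0, ∀ x ∈ tsupport φ ∩ {x : P | η ≤ σ * x.1}, c ≤ f x := by
    rcases (tsupport φ ∩ {x : P | η ≤ σ * x.1}).eq_empty_or_nonempty with he | hne
    · exact ⟨1, one_pos, fun x hx => by rw [he] at hx; exact absurd hx (notMem_empty x)⟩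
    · obtain ⟨K, hKf⟩ := hf.2
      obtain ⟨x0, hx0, hmin⟩ := hK.exists_isMinOn hne hKf.continuous.continuousOn
      refine ⟨f x0, ?_, fun x hx => hmin hx⟩
      apply h4
      · have := hφr hx0.1
        rwa [mem_ball_zero_iff] at this
      · have : η ≤ σ * x0.1 := hx0.2
        linarith
  refine ⟨c / (|r| + 1), by positivity, ?_⟩
  set ε : ℝ := c / (|r| + 1) with hε
  have hε0 : 0 < ε := by positivity
  set F : P → ℝ := fun x => max (f x) (ε * m x) with hF
  have hFL : Lip F := CBJ_lip_max hf.2 (CBJ_lip_mul ε hmL)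
  set u : P → ℝ := fun x => F x + (-1) * f x with hu
  have huL : Lip u := CBJ_lip_add hFL (CBJ_lip_mul (-1) hf.2)
  have hub : ∀ x ∈ tsupport φ, |u x| ≤ ε * η := by
    intro x hx
    have hu0 : 0 ≤ u x := by
      simp only [hu, hF]
      linarith [le_max_left (f x) (ε * m x)]
    rw [abs_of_nonneg hu0]
    by_cases hxη : η ≤ σ * x.1
    · have h5 := hcf x ⟨hx, hxη⟩
      have h6 : ε * m x ≤ c := by
        have h7 : m x ≤ |r| + 1 := by
          have h8 := hφr hx
          rw [mem_ball_zero_iff] at h8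
          linarith [hmb x, le_abs_self r]
        calc ε * m x ≤ ε * (|r| + 1) := mul_le_mul_of_nonneg_left h7 hε0.le
          _ = c := by rw [hε]; field_simp
      have h9 : u x = 0 := by
        simp only [hu, hF]
        rw [max_eq_left (h6.trans h5)]
        ring
      rw [h9]
      positivity
    · push Not at hxη
      have h5 : m x ≤ η := max_le hxη.le hη.le
      have h6 : u x ≤ ε * m x := by
        simp only [hu, hF]
        have : max (f x) (ε * m x) ≤ f x + ε * m x := by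
          apply max_le
          · have : 0 ≤ ε * m x := mul_nonneg hε0.le (le_max_right _ _)
            linarith
          · linarith [h1 x]
        linarith
      exact h6.trans (mul_le_mul_of_nonneg_left h5 hε0.le)
  have hb := hCb u huL (ε * η) (by positivity) hub
  have e1 : B φ u g = B φ F g + B φ (fun x => (-1) * f x) g :=
    B_add_left hφ.1 hFL (CBJ_lip_mul (-1) hf.2) hg.2
  have e2 : B φ (fun x => (-1) * f x) g = (-1) * B φ f g := B_smul_left hφ.1 hf.2 hg.2 (-1)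
  rw [hB φ hφ hφr] at e2
  rw [e2] at e1
  have : B φ F g = B φ u g := by linarith
  rw [this]
  exact (le_abs_self _).trans hb

theorem side_bound {f g : P → ℝ} (hf : LC f) (hg : LC g) {σ r s : ℝ} (hσ : σ = 1 ∨ σ = -1)
    (hr : 0 < r) (hs : 0 < s) (h1 : ∀ x, 0 ≤ f x) (h2 : ∀ t, |t| ≤ s → f (0, t) = 0)
    (h3 : ZeroSlope f s σ) (h4 : ∀ x : P, ‖x‖ < r → 0 < σ * x.1 → 0 < f x)
    (hB : ∀ φ, Test φ → tsupport φ ⊆ Metric.ball 0 r → B φ f g = 0)
    {φ : P → ℝ} (hφ : Test φ) (hφr : tsupport φ ⊆ Metric.ball 0 r)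
    (hφs : tsupport φ ⊆ Metric.ball 0 s) :
    ∫ t : ℝ, g (0, t) * d2 (d2 φ) (0, t) ≤ 0 := by
  obtain ⟨C, hC, hup⟩ := CB2_upper hf hg hσ h1 h4 hB hφ hφr
  by_contra hcon
  push Not at hcon
  set I : ℝ := ∫ t : ℝ, g (0, t) * d2 (d2 φ) (0, t) with hI
  obtain ⟨ε, hε, hle⟩ := hup (I / (4 * (C + 1))) (by positivity)
  have hlow := CB2_lower hf hg hσ hs h1 h2 h3 hφ hφs hε
  rw [← hI] at hlow
  have h5 : ε * ((1 / 2) * I) ≤ C * (ε * (I / (4 * (C + 1)))) := hlow.trans hle
  have h6 : C * (ε * (I / (4 * (C + 1)))) ≤ ε * (I / 4) := by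
    have : C * (ε * (I / (4 * (C + 1)))) = ε * (I / 4) * (C / (C + 1)) := by
      field_simp
    rw [this]
    have h7 : C / (C + 1) ≤ 1 := by
      rw [div_le_one (by positivity)]; linarith
    have h8 : 0 ≤ ε * (I / 4) := by positivity
    calc ε * (I / 4) * (C / (C + 1)) ≤ ε * (I / 4) * 1 := mul_le_mul_of_nonneg_left h7 h8
      _ = _ := mul_one _
  have h9 : 0 < ε * I := by positivity
  nlinarith

end Pool.Agent.helper41.Sch
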