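import Pool.Agent.helper95.Sch.BI
import Pool.Agent.helper61.Sch.PO1
import Pool.Agent.helper79.Sch.SP2
import Pool.Agent.helper14.Sch.GL

open scoped Pointwise ContDiff
open MeasureTheory Set Filter Topology

namespace Pool.Agent.helper41.Sch

theorem CBJ_lip_sub {f g : P → ℝ} (hf : Lip f) (hg : Lip g) : Lip (fun x => f x - g x) := by
  obtain ⟨K, hK⟩ := hf
  obtain ⟨L, hL⟩ := hg
  exact ⟨K + L, hK.sub hL⟩

theorem CBJ_lip_add {f g : P → ℝ} (hf : Lip f) (hg : Lip g) : Lip (fun x => f x + g x) := by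
  obtain ⟨K, hK⟩ := hf
  obtain ⟨L, hL⟩ := hg
  exact ⟨K + L, hK.add hL⟩

theorem CBJ_lip_max {f g : P → ℝ} (hf : Lip f) (hg : Lip g) : Lip (fun x => max (f x) (g x)) := by
  obtain ⟨K, hK⟩ := hf
  obtain ⟨L, hL⟩ := hg
  exact ⟨max K L, hK.max hL⟩

theorem CBJ_lip_const (c : ℝ) : Lip (fun _ => c) := ⟨0, LipschitzWith.const c⟩

theorem CBJ_lip_fst : Lip (fun x : P => x.1) := ⟨1, LipschitzWith.prod_fst⟩

theorem CBJ_lip_mul (c : ℝ) {f : P → ℝ} (hf : Lip f) : Lip (fun x => c * f x) := by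
  obtain ⟨K, hK⟩ := hf
  refine ⟨‖c‖₊ * K, ?_⟩
  have := (lipschitzWith_smul c).comp hK
  simpa [Function.comp_def] using this

theorem CBJ_strip_open (s : ℝ) : IsOpen {x : P | |x.2| < s} :=
  isOpen_lt (continuous_abs.comp continuous_snd) continuous_const

theorem CBJ_strip_convex (s : ℝ) : Convex ℝ {x : P | |x.2| < s} := by
  have : {x : P | |x.2| < s} = (LinearMap.snd ℝ ℝ ℝ) ⁻¹' (Ioo (-s) s) := by
    ext x
    simp [abs_lt]
  rw [this]
  exact (convex_Ioo (-s) s).linear_preimage _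

theorem CBJ_ball_strip {s : ℝ} {φ : P → ℝ} (h : tsupport φ ⊆ Metric.ball 0 s) :
    tsupport φ ⊆ {x : P | |x.2| < s} := by
  intro x hx
  have h1 := h hx
  rw [mem_ball_zero_iff] at h1
  exact lt_of_le_of_lt (by simpa using norm_snd_le x) h1

theorem CBJ_fst_convex (c : ℝ) {Q : Set P} (hQ : Convex ℝ Q) : ConvexOn ℝ Q (fun x : P => c * x.1) := by
  refine ⟨hQ, fun x _ y _ a b _ _ _ => ?_⟩
  simp only [Prod.fst_add, Prod.smul_fst, smul_eq_mul]
  apply le_of_eq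
  ring

theorem jump_bound {f g : P → ℝ} (hf : LC f) (hg : LC g) {r s J : ℝ} (hJ : 0 < J)
    (hr : 0 < r) (hs : 0 < s) (h1 : ∀ x, 0 ≤ f x) (h2 : ∀ t, |t| ≤ s → f (0, t) = 0)
    (h3 : ∀ x : P, J * x.1 ≤ f x)
    (hB : ∀ φ, Test φ → tsupport φ ⊆ Metric.ball 0 r → B φ f g = 0)
    {φ : P → ℝ} (hφ : Test φ) (hφr : tsupport φ ⊆ Metric.ball 0 r)
    (hφs : tsupport φ ⊆ Metric.ball 0 s) :
    ∫ t : ℝ, g (0, t) * d2 (d2 φ) (0, t) ≤ 0 := by
  set m : P → ℝ := fun x => max x.1 0 with hm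
  set h : P → ℝ := fun x => f x + (-J) * m x with hh
  have hmL : Lip m := CBJ_lip_max CBJ_lip_fst (CBJ_lip_const 0)
  have hhL : Lip h := CBJ_lip_add hf.2 (CBJ_lip_mul (-J) hmL)
  have hQ := CBJ_strip_convex s
  have hfQ : ConvexOn ℝ {x : P | |x.2| < s} f := hf.1.subset (subset_univ _) hQ
  have hgQ : ConvexOn ℝ {x : P | |x.2| < s} g := hg.1.subset (subset_univ _) hQ
  have hf'Q : ConvexOn ℝ {x : P | |x.2| < s} (fun x => f x + (-J) * x.1) :=
    hfQ.add (CBJ_fst_convex (-J) hQ)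
  have hglue := glue hs hfQ hf'Q (fun x _ => h1 x) (fun x _ => by linarith [h3 x])
    (fun t ht => h2 t ht.le) (fun t ht => by simp [h2 t ht.le])
  have heq : (fun x : P => if x.1 ≤ 0 then f x else f x + (-J) * x.1) = h := by
    funext x
    simp only [hh, hm]
    split_ifs with hx
    · rw [max_eq_right hx]; ring
    · rw [max_eq_left (not_le.1 hx).le]
  rw [heq] at hglue
  have hpos : 0 ≤ B φ h g := B_nonneg hφ hhL hg.2 _ (CBJ_strip_open s) hQ (CBJ_ball_strip hφs)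
    hglue hgQ
  have e1 : B φ h g = B φ f g + B φ (fun x => (-J) * m x) g :=
    B_add_left hφ.1 hf.2 (CBJ_lip_mul (-J) hmL) hg.2
  have e2 : B φ (fun x => (-J) * m x) g = (-J) * B φ m g := B_smul_left hφ.1 hmL hg.2 (-J)
  have e3 : B φ m g = (1 / 2) * ∫ s : ℝ, g (0, s) * d2 (d2 φ) (0, s) := B_crease_pos hφ.1 hg.2
  rw [e1, hB φ hφ hφr, e2, e3] at hpos
  by_contra hcon
  push Not at hcon
  nlinarith

end Pool.Agent.helper41.Sch
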